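import Pool.Agent.Lib.MP_144d21_co.X2.H60.Iqend
import Pool.Agent.Lib.MP_144d21_co.X2.QDefs
import Pool.Agent.Lib.MP_144d21_co.X2.IfaceS
import Pool.Agent.Lib.MP_144d21_co.PSI.H70.Vtx
import Pool.Agent.Lib.MP_144d21_co.PSI.H89.Drop
import Pool.Agent.Lib.MP_144d21_co.PSI.H47.KCOMP
import Pool.Agent.Lib.MP_144d21_co.PSI.H98.Kdim

/-!
# X2, row IQ4: the inequality IQ for 3-connected graphs without separation of order 3 (helper60)
-/

set_option autoImplicit false

namespace Pool.Agent.Xu.X2.H60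

open Finset Polynomial Pool.Agent.Xu

theorem r1 (hKN : KnS) : R1S := fun V _ _ G S p hp h3 => (hKN V p hp G S h3).1

/-- the statement `S4S` is `TwoS` -/
theorem s4 (h : TwoS) : S4S := fun V _ _ G S p hp h3 hno =>
  h V p hp G S h3 fun T P Q hc => hno ⟨T, P, Q, hc⟩

theorem iq4row (h4 : S4S) (hPSI : PsimS) (hTA : ThmaS) (hRK : Rkd3S) (hKN : KnS) :
    X2.Iq4S := by
  intro V _ _ G S h3 h5 hno hne
  obtain ⟨p, hp⟩ := H40.gen V
  have hend : IqendS := iqend (iq4 (p4low hPSI (d2b H70.vtx H89.drop H47.kcomp H98.kdim)) hRK hTA)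
    (r1 hKN)
  exact hend V G S p hp h3.2.1 (by omega) hne (h4 V G S p hp h3 hno)

end Pool.Agent.Xu.X2.H60
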