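import Pool.Agent.Lib.MP_144d21_co.PSI.Iface

/-!
# X2, module D2B: `2 * D2 ≤ D3 + 1` (helper60)
-/

set_option autoImplicit false

namespace Pool.Agent.Xu.X2.H60

open Finset Polynomial Pool.Agent.Xu

section lin

variable {F : Type} [Field F] {K V : Type} [Fintype K] [DecidableEq K] [Fintype V]
  [DecidableEq V]

/-- every dimension of the space of relations uses two vectors -/
theorem rel_bound (hVTX : VtxS) (hDROP : DropS) (w : K → V → F) (S : Finset V)
    (h1 : ∀ v ∈ S, (inc w v).card = 3) (h2 : ∀ v, v ∉ S → inc w v = ∅)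
    (h3 : ∀ D, ∃ v, w D v ≠ 0)
    (h4 : ∀ A ⊆ S, A.Nonempty → A ≠ S →
      ∃ u ∈ A, ∃ v ∈ S, v ∉ A ∧ ∃ D, w D u ≠ 0 ∧ w D v ≠ 0) :
    ∀ (k : ℕ) (Z : Finset K), Fintype.card K ≤ Z.card + k → (∃ v ∈ S, inc w v ⊆ Z) →
      2 * Module.finrank F (Rel w Z) + Z.card ≤ Fintype.card K := by
  intro k
  induction k using Nat.strong_induction_on with
  | _ k ih =>
    intro Z hk hv
    by_cases hR : Rel w Z = ⊥
    · rw [hR, finrank_bot, mul_zero, zero_add]
      exact card_le_univ Z
    · obtain ⟨u, -, D0, D1, D2, h01, h02, h12, hinc, hD0, ⟨x1, hx1, hx1'⟩, ⟨x2, hx2, hx2'⟩⟩ :=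
        hVTX F K V w S Z h1 h2 h3 h4 hv hR
      have hdrop := hDROP F K V w Z u D0 D1 D2 h01 h02 h12 hinc hD0 ⟨x1, hx1, hx1'⟩
      have hn1 : D1 ∉ Z := fun h => hx1' (hx1.1 D1 h)
      have hn2 : D2 ∉ Z := fun h => hx2' (hx2.1 D2 h)
      have hn1' : D1 ∉ insert D2 Z := by
        rw [mem_insert, not_or]
        exact ⟨h12, hn1⟩
      have hcard : (insert D1 (insert D2 Z)).card = Z.card + 2 := by
        rw [card_insert_of_notMem hn1', card_insert_of_notMem hn2]
      have hle : (insert D1 (insert D2 Z)).card ≤ Fintype.card K := card_le_univ _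
      obtain ⟨v, hvS, hvZ⟩ := hv
      have hih := ih (k - 2) (by omega) (insert D1 (insert D2 Z)) (by omega)
        ⟨v, hvS, hvZ.trans fun D hD => mem_insert_of_mem (mem_insert_of_mem hD)⟩
      omega

/-- the relations which vanish at the three vectors through a vertex have codimension at most `2` -/
theorem rel_codim (w : K → V → F) (v : V) (hv : (inc w v).card = 3) :
    Module.finrank F (Rel w ∅) ≤ Module.finrank F (Rel w (inc w v)) + 2 := by
  obtain ⟨D0, D1, D2, h01, h02, h12, hinc⟩ := card_eq_three.1 hv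
  let φ : Rel w ∅ →ₗ[F] F × F :=
    { toFun := fun x => (x.1 D1, x.1 D2)
      map_add' := fun x y => rfl
      map_smul' := fun r x => rfl }
  have hker : ∀ x ∈ LinearMap.ker φ, (x : K → F) ∈ Rel w (inc w v) := by
    rintro ⟨x, hx⟩ h
    have h1 : (x D1, x D2) = (0, 0) := h
    simp only [Prod.mk.injEq] at h1
    have h2 : ∑ D, x D * w D v = 0 := hx.2 v
    have h3 : ∑ D, x D * w D v = x D0 * w D0 v := by
      rw [← sum_subset (subset_univ (inc w v))]
      · rw [hinc, sum_insert (by simp [h01, h02]), sum_insert (by simp [h12]), sum_singleton,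
          h1.1, h1.2, zero_mul, zero_mul, add_zero, add_zero]
      · intro D _ hD
        have : w D v = 0 := by
          by_contra hne
          exact hD (mem_inc.2 hne)
        rw [this, mul_zero]
    have h4 : w D0 v ≠ 0 := mem_inc.1 (by rw [hinc]; simp)
    have h5 : x D0 = 0 := by
      rw [h3] at h2
      exact (mul_eq_zero.1 h2).resolve_right h4
    refine ⟨fun D hD => ?_, hx.2⟩
    rw [hinc] at hD
    simp only [mem_insert, mem_singleton] at hD
    rcases hD with rfl | rfl | rfl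
    · exact h5
    · exact h1.1
    · exact h1.2
  let ψ : LinearMap.ker φ →ₗ[F] Rel w (inc w v) :=
    { toFun := fun x => ⟨x.1.1, hker x.1 x.2⟩
      map_add' := fun x y => rfl
      map_smul' := fun r x => rfl }
  have hψ : Function.Injective ψ := by
    intro x y h
    have h1 : (x.1.1 : K → F) = y.1.1 := congrArg (fun z : Rel w (inc w v) => (z : K → F)) h
    exact Subtype.ext (Subtype.ext h1)
  have e1 := LinearMap.finrank_range_add_finrank_ker φ
  have e2 := LinearMap.finrank_le_finrank_of_injective hψ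
  have e3 : Module.finrank F (LinearMap.range φ) ≤ 2 := by
    refine (Submodule.finrank_le _).trans ?_
    rw [Module.finrank_prod, Module.finrank_self]
  omega

end lin

/-- D2B -/
def D2bS : Prop := ∀ (V : Type) [Fintype V] [DecidableEq V] (G : SimpleGraph V) (S : Finset V)
  (c : V → ℕ), Conn G S → c ∈ cols G S 4 → 2 * D2 G S c ≤ D3 G S c + 1

theorem d2b (hVTX : VtxS) (hDROP : DropS) (hK : KcompS) (hD : KdimS) : D2bS := by
  intro V _ _ G S c hS hc
  classical
  obtain ⟨h1, h2, h3, -, h5⟩ := hK V G S c hc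
  obtain ⟨hD3, hD2⟩ := hD V G S c hc
  obtain ⟨v0, hv0⟩ := hS.1
  have h4 : ∀ A ⊆ S, A.Nonempty → A ≠ S →
      ∃ u ∈ A, ∃ v ∈ S, v ∉ A ∧ ∃ D : KC G S c, wv ℝ D u ≠ 0 ∧ wv ℝ D v ≠ 0 := by
    intro A hA hne hneq
    obtain ⟨a, ha, b, hb, hbA, hadj⟩ := hS.2 A hA hne hneq
    exact ⟨a, ha, b, hb, hbA, h5 a (hA ha) b hb hadj⟩
  have e1 := rel_bound hVTX hDROP (fun x : KC G S c => wv ℝ x) S h1 h2 h3 h4
    (Fintype.card (KC G S c)) (inc (fun x : KC G S c => wv ℝ x) v0) (Nat.le_add_left _ _)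
    ⟨v0, hv0, fun _ h => h⟩
  have e2 := rel_codim (fun x : KC G S c => wv ℝ x) v0 (h1 v0 hv0)
  have e3 := h1 v0 hv0
  rw [hD3, hD2]
  omega

end Pool.Agent.Xu.X2.H60
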