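import Pool.Agent.Lib.MP_144d21_co.X2.H60.P4low
import Pool.Agent.Lib.MP_144d21_co.X2.H40.Gen

/-!
# X2, module IQ4: `3 * 2 ^ n ≤ β P(4)` with its case of equality, for the graphs to which the lower
bound (II) for `β` applies (helper60)
-/

set_option autoImplicit false

namespace Pool.Agent.Xu.X2.H60

open Finset Polynomial Pool.Agent.Xu

/-- the numerical bound, all degrees of freedom -/
theorem two_pow_par (d : ℕ) : (2 : ℝ) ^ d * 2 ^ (d % 2) = 4 ^ ((d + 1) / 2) := by
  have h : d + d % 2 = 2 * ((d + 1) / 2) := by omega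
  rw [← pow_add, h, pow_mul]
  norm_num

/-- IQ4: `d` is the number of degrees of freedom of `G[S]` -/
def Iq4S : Prop := ∀ (V : Type) [Fintype V] [DecidableEq V] (G : SimpleGraph V) (S : Finset V)
  (p : V → Fin 3 → ℝ) (d : ℕ), H40.Gen p → TwoConn G S → rk p G S + d + 6 = 3 * S.card →
  (cols G S 4).Nonempty →
  (2 : ℤ) ^ S.card * 2 ^ (d % 2) ≤ 8 * bet G S * 3 ^ ((d + 1) / 2) →
  3 * 2 ^ S.card ≤ bet G S * ((cols G S 4).card : ℤ) ∧
    (bet G S * ((cols G S 4).card : ℤ) = 3 * 2 ^ S.card → ChordalOn G S)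

theorem iq4 (hP4 : P4lowS) (hRK : Rkd3S) (hTA : ThmaS) : Iq4S := by
  intro V _ _ G S p d hp h2 hd hne hb
  set m := (d + 1) / 2 with hm
  have hD : ∀ c ∈ cols G S 4, d + 6 ≤ D3 G S c := by
    intro c hc
    have e1 := hRK V G S c hc
    have e2 := hp.2 (plc c) G S
    omega
  have hP := hP4 V G S d h2.2.1 hne hD
  -- the number of colourings, in integers
  have hPr : (24 : ℝ) * 3 ^ m ≤ ((cols G S 4).card : ℝ) * 2 ^ (d % 2) := by
    have e1 := two_pow_par d
    rw [← hm] at e1
    have e2 : (24 : ℝ) * 2 ^ d * (3 / 4 : ℝ) ^ m * 2 ^ (d % 2) = 24 * 3 ^ m := by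
      have : (24 : ℝ) * 2 ^ d * (3 / 4 : ℝ) ^ m * 2 ^ (d % 2) =
          24 * (3 / 4 : ℝ) ^ m * (2 ^ d * 2 ^ (d % 2)) := by ring
      rw [this, e1, mul_assoc, ← mul_pow]
      norm_num
    rw [← e2]
    exact mul_le_mul_of_nonneg_right hP (by positivity)
  have hPz : (24 : ℤ) * 3 ^ m ≤ ((cols G S 4).card : ℤ) * 2 ^ (d % 2) := by
    exact_mod_cast hPr
  have h3 : (0 : ℤ) < 3 ^ m := by positivity
  have h2' : (0 : ℤ) < 2 ^ (d % 2) := by positivity
  have hn : (0 : ℤ) < 2 ^ S.card := by positivity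
  have hmul := mul_le_mul hb hPz (by positivity) (le_trans (by positivity) hb)
  constructor
  · by_contra hcon
    push Not at hcon
    have h5 : (bet G S * ((cols G S 4).card : ℤ)) * (8 * 3 ^ m * 2 ^ (d % 2)) <
        3 * 2 ^ S.card * (8 * 3 ^ m * 2 ^ (d % 2)) :=
      mul_lt_mul_of_pos_right hcon (by positivity)
    nlinarith [hmul, h5]
  · intro heq
    have h6 : (2 : ℤ) ^ S.card * 2 ^ (d % 2) = 8 * bet G S * 3 ^ m := by
      apply le_antisymm hb
      by_contra hcon
      push Not at hcon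
      have h7 : (2 : ℤ) ^ S.card * 2 ^ (d % 2) * (24 * 3 ^ m) <
          8 * bet G S * 3 ^ m * (24 * 3 ^ m) := mul_lt_mul_of_pos_right hcon (by positivity)
      have h8 : 8 * bet G S * 3 ^ m * (24 * 3 ^ m) ≤
          8 * bet G S * 3 ^ m * (((cols G S 4).card : ℤ) * 2 ^ (d % 2)) :=
        mul_le_mul_of_nonneg_left hPz (le_trans (by positivity) hb)
      have h9 : 8 * bet G S * 3 ^ m * (((cols G S 4).card : ℤ) * 2 ^ (d % 2)) =
          (bet G S * ((cols G S 4).card : ℤ)) * (8 * 3 ^ m * 2 ^ (d % 2)) := by ring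
      rw [h9, heq] at h8
      nlinarith [h7, h8]
    have hm0 : m = 0 := by
      by_contra hne0
      have h10 : (3 : ℤ) ∣ 2 ^ S.card * 2 ^ (d % 2) := by
        rw [h6]
        exact Dvd.dvd.mul_left (dvd_pow_self 3 hne0) _
      rw [← pow_add] at h10
      have h11 := Int.Prime.dvd_pow' (p := 3) (by norm_num) h10
      omega
    have hd0 : d = 0 := by omega
    subst hd0
    rw [hm0] at h6
    simp only [Nat.zero_mod, pow_zero, mul_one] at h6
    obtain ⟨hlb, hq⟩ := hTA V G S p hp.1 h2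
    refine (hq ?_).1
    have hr : rk p G S = 3 * S.card - 6 := by omega
    have hc3 : 3 ≤ S.card := by
      by_contra hlt
      have hc2 : S.card = 2 := by
        have := h2.1
        omega
      rw [hc2] at h6
      omega
    have h12 : bet G S = 2 ^ (S.card - 3) := by
      have h13 : (2 : ℤ) ^ S.card = 8 * 2 ^ (S.card - 3) := by
        have : S.card = 3 + (S.card - 3) := by omega
        conv_lhs => rw [this]
        rw [pow_add]
        norm_num
      rw [h13] at h6
      linarith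
    rw [h12, hr, ← pow_add]
    congr 1
    omega

end Pool.Agent.Xu.X2.H60
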