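import Pool.Agent.Lib.MP_144d21_co.X2.H60.Iq4
import Pool.Agent.Lib.MP_144d21_co.X2.Defs

/-!
# X2, module IQEND: `β ≥ 2 ^ (n - 3) E(d)` gives `β P(4) ≥ 3 * 2 ^ n`, with equality only for chordal
graphs (helper60)
-/

set_option autoImplicit false

namespace Pool.Agent.Xu.X2.H60

open Finset Polynomial Pool.Agent.Xu

theorem EE_mul (d : ℕ) : EE d * 3 ^ ((d + 1) / 2) = 2 ^ (d % 2) := by
  unfold EE
  rcases Nat.mod_two_eq_zero_or_one d with h | h
  · have h1 : (d + 1) / 2 = d / 2 := by omega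
    rw [if_pos h, h1, h, one_mul, ← mul_pow]
    norm_num
  · have h1 : (d + 1) / 2 = d / 2 + 1 := by omega
    have h2 : ((1 : ℝ) / 3) ^ (d / 2) * 3 ^ (d / 2) = 1 := by
      rw [← mul_pow]
      norm_num
    rw [if_neg (by omega), h1, h, pow_succ]
    calc (2 / 3 : ℝ) * (1 / 3) ^ (d / 2) * (3 ^ (d / 2) * 3)
        = 2 * ((1 / 3) ^ (d / 2) * 3 ^ (d / 2)) := by ring
      _ = 2 ^ 1 := by rw [h2]; norm_num

/-- the rank of a graph on at least three vertices -/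
def R1S : Prop := ∀ (V : Type) [Fintype V] [DecidableEq V] (G : SimpleGraph V) (S : Finset V)
  (p : V → Fin 3 → ℝ), GP p → 3 ≤ S.card → rk p G S + 6 ≤ 3 * S.card

/-- IQEND -/
def IqendS : Prop := ∀ (V : Type) [Fintype V] [DecidableEq V] (G : SimpleGraph V) (S : Finset V)
  (p : V → Fin 3 → ℝ), Gen p → TwoConn G S → 3 ≤ S.card → (cols G S 4).Nonempty →
  FF p G S ≤ (bet G S : ℝ) →
  3 * 2 ^ S.card ≤ bet G S * ((cols G S 4).card : ℤ) ∧
    (bet G S * ((cols G S 4).card : ℤ) = 3 * 2 ^ S.card → ChordalOn G S)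

theorem iqend (hIQ : Iq4S) (hR1 : R1S) : IqendS := by
  intro V _ _ G S p hp h2 h3 hne hF
  have hr := hR1 V G S p hp.1 h3
  have hd : rk p G S + dd p G S + 6 = 3 * S.card := by
    unfold dd
    omega
  refine hIQ V G S p (dd p G S) hp h2 hd hne ?_
  unfold FF at hF
  set d := dd p G S
  have h4 := EE_mul d
  have h5 : (2 : ℝ) ^ S.card = 8 * 2 ^ (S.card - 3) := by
    have : S.card = 3 + (S.card - 3) := by omega
    conv_lhs => rw [this]
    rw [pow_add]
    norm_num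
  have h6 : (2 : ℝ) ^ S.card * 2 ^ (d % 2) ≤ 8 * (bet G S : ℝ) * 3 ^ ((d + 1) / 2) := by
    rw [h5, ← h4]
    have h7 : (0 : ℝ) < 3 ^ ((d + 1) / 2) := by positivity
    nlinarith [mul_le_mul_of_nonneg_right hF h7.le]
  exact_mod_cast h6

end Pool.Agent.Xu.X2.H60
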