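import Pool.Agent.Lib.MP_144d21_co.X2.H60.Dtwo
import Pool.Agent.Lib.MP_144d21_co.XU3.Iface

/-!
# X2, module P4LOW: the number of 4-colourings from PSI (helper60)
-/

set_option autoImplicit false

namespace Pool.Agent.Xu.X2.H60

open Finset Polynomial Pool.Agent.Xu

theorem gfun_step (k : ℕ) : ((4 / 3 : ℝ) ^ ((k + 1 + 1) / 2) / 2 ^ (k + 1)) ≤
    (4 / 3 : ℝ) ^ ((k + 1) / 2) / 2 ^ k := by
  have h1 : (4 / 3 : ℝ) ^ ((k + 1 + 1) / 2) ≤ (4 / 3 : ℝ) ^ ((k + 1) / 2 + 1) :=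
    pow_le_pow_right₀ (by norm_num) (by omega)
  have h2 : (0 : ℝ) < 2 ^ k := by positivity
  have h3 : (0 : ℝ) < (4 / 3 : ℝ) ^ ((k + 1) / 2) := by positivity
  rw [div_le_div_iff₀ (by positivity) h2, pow_succ (2 : ℝ)]
  rw [pow_succ] at h1
  nlinarith [mul_pos h2 h3]

theorem gfun_anti {k m : ℕ} (h : k ≤ m) : ((4 / 3 : ℝ) ^ ((m + 1) / 2) / 2 ^ m) ≤
    (4 / 3 : ℝ) ^ ((k + 1) / 2) / 2 ^ k :=
  antitone_nat_of_succ_le (f := fun k : ℕ => (4 / 3 : ℝ) ^ ((k + 1) / 2) / 2 ^ k) gfun_step h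

/-- P4LOW -/
def P4lowS : Prop := ∀ (V : Type) [Fintype V] [DecidableEq V] (G : SimpleGraph V) (S : Finset V)
  (d : ℕ), Conn G S → (cols G S 4).Nonempty → (∀ c ∈ cols G S 4, d + 6 ≤ D3 G S c) →
  24 * 2 ^ d * (3 / 4 : ℝ) ^ ((d + 1) / 2) ≤ ((cols G S 4).card : ℝ)

theorem p4low (hPSI : PsimS) (hD2 : D2bS) : P4lowS := by
  intro V _ _ G S d hS hne hD
  have h1 := hPSI V G S hS hne
  have h2 : ∑ c ∈ cols G S 4, ((4 / 3) ^ D2 G S c / 2 ^ D3 G S c : ℝ) ≤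
      ∑ c ∈ cols G S 4, ((4 / 3 : ℝ) ^ ((d + 6 + 1) / 2) / 2 ^ (d + 6)) := by
    refine sum_le_sum fun c hc => ?_
    have e1 := hD2 V G S c hS hc
    have e2 := hD c hc
    have e3 : D2 G S c ≤ (D3 G S c + 1) / 2 := by omega
    refine le_trans ?_ (gfun_anti e2)
    apply div_le_div_of_nonneg_right _ (by positivity)
    exact pow_le_pow_right₀ (by norm_num) e3
  rw [sum_const, nsmul_eq_mul] at h2
  have h3 := h1.trans h2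
  have h4 : (d + 6 + 1) / 2 = 3 + (d + 1) / 2 := by omega
  rw [h4, pow_add, pow_add] at h3
  set m := (d + 1) / 2 with hm
  have h5 : (3 / 4 : ℝ) ^ m * (4 / 3 : ℝ) ^ m = 1 := by
    rw [← mul_pow]; norm_num
  have h6 : (0 : ℝ) < (3 / 4 : ℝ) ^ m := by positivity
  have h7 : (0 : ℝ) < 2 ^ d := by positivity
  have h8 : ((cols G S 4).card : ℝ) * ((4 / 3) ^ 3 * (4 / 3) ^ m / (2 ^ d * 2 ^ 6)) * (24 * 2 ^ d * (3 / 4 : ℝ) ^ m) = ((cols G S 4).card : ℝ) * (8 / 9) := by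
    have : ((4 / 3) ^ 3 * (4 / 3) ^ m / (2 ^ d * 2 ^ 6) : ℝ) * (24 * 2 ^ d * (3 / 4 : ℝ) ^ m) =
        (8 / 9) * ((3 / 4 : ℝ) ^ m * (4 / 3 : ℝ) ^ m) := by
      field_simp
      norm_num
    rw [mul_assoc, this, h5, mul_one]
  have h9 : (8 / 9 : ℝ) * (24 * 2 ^ d * (3 / 4 : ℝ) ^ m) ≤ ((cols G S 4).card : ℝ) * (8 / 9) := by
    rw [← h8]
    exact mul_le_mul_of_nonneg_right h3 (by positivity)
  linarith

end Pool.Agent.Xu.X2.H60
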